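import Pool.Agent.Helper23.SP.Basic

set_option autoImplicit false

/-!
# Project SP: statements of the pieces
-/

namespace Pool.Agent.Helper23.SP.St

open Finset
open Pool.Agent.Helper23.SP
open Pool.Agent.Helper22.ETModel Pool.Agent.Helper22.TSModel

/-! ## SP-A (helper17): reading lemmas -/

open Classical in
/-- SP-A1. -/
theorem read_coll {El G V C : Type} [Fintype El] [DecidableEq El] [Fintype G] [DecidableEq G]
    [Fintype V] [DecidableEq V] [DecidableEq C] {b U : ℕ} (c0 : El → C) (key : El → Fin b → G)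
    (hkey : ∀ e y e' y', key e y = key e' y' → c0 e = c0 e' ∧ y = y')
    (S : ℕ → V → Finset El) (nx : ℕ → V → ((El → Fin b) × (G → Fin U)) → V)
    (hnx : ∀ t v (ω ω' : (El → Fin b) × (G → Fin U)), (∀ e ∈ S t v, ω.1 e = ω'.1 e ∧
      ω.2 (key e (ω.1 e)) = ω'.2 (key e (ω'.1 e))) → nx t v ω = nx t v ω')
    (v0 : V) (n A B x0 : ℕ) (h : 5 * A * (B * U + A * b) ≤ x0 * b * U) :
    (univ.filter (fun ω : (El → Fin b) × (G → Fin U) =>
      (rd S nx v0 ω n).card ≤ A ∧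
      (∀ c, ((rd S nx v0 ω n).filter (fun e => c0 e = c)).card ≤ B) ∧
      x0 + ((rd S nx v0 ω n).image (fun e => ω.2 (key e (ω.1 e)))).card ≤
        (rd S nx v0 ω n).card)).card * 2 ^ x0 ≤
      Fintype.card ((El → Fin b) × (G → Fin U)) := by
  sorry

open Classical in
/-- SP-A2. -/
theorem read_cell {El G V C : Type} [Fintype El] [DecidableEq El] [Fintype G] [DecidableEq G]
    [Fintype V] [DecidableEq V] [DecidableEq C] {b U : ℕ} (c0 : El → C) (key : El → Fin b → G)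
    (hkey : ∀ e y e' y', key e y = key e' y' → c0 e = c0 e' ∧ y = y')
    (S : ℕ → V → Finset El) (nx : ℕ → V → ((El → Fin b) × (G → Fin U)) → V)
    (hnx : ∀ t v (ω ω' : (El → Fin b) × (G → Fin U)), (∀ e ∈ S t v, ω.1 e = ω'.1 e ∧
      ω.2 (key e (ω.1 e)) = ω'.2 (key e (ω'.1 e))) → nx t v ω = nx t v ω')
    (v0 : V) (n B x0 : ℕ) (h : 5 * B ≤ x0 * b) (c : C) (d : Fin b) :
    (univ.filter (fun ω : (El → Fin b) × (G → Fin U) =>
      ((rd S nx v0 ω n).filter (fun e => c0 e = c)).card ≤ B ∧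
      x0 ≤ ((rd S nx v0 ω n).filter (fun e => c0 e = c ∧ ω.1 e = d)).card)).card * 2 ^ x0 ≤
      Fintype.card ((El → Fin b) × (G → Fin U)) := by
  sorry

/-! ## SP-B: resampling one level -/

section lens

variable {El : Type} [Fintype El] {k b U : ℕ} [NeZero b]

open Classical in
/-- SP-B1. -/
theorem card_put [DecidableEq El] (r : Fin k) (A : Finset (Om El k b U)) (x : ℕ)
    (h : ∀ ω : Om El k b U,
      (univ.filter (fun ξ : (El → Fin b) × ((Fin k → Fin b) → Fin U) => put r ω ξ ∈ A)).card *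
        2 ^ x ≤ Fintype.card ((El → Fin b) × ((Fin k → Fin b) → Fin U))) :
    A.card * 2 ^ x ≤ Fintype.card (Om El k b U) := by
  sorry

omit [Fintype El] in
/-- SP-B2. -/
theorem g_put_lt {r i : Fin k} (hi : i.val < r.val) (ω : Om El k b U)
    (ξ : (El → Fin b) × ((Fin k → Fin b) → Fin U)) (e : El) :
    g i (put r ω ξ) e = g i ω e := by
  sorry

omit [Fintype El] in
/-- SP-B3. -/
theorem g_put_self (r : Fin k) (ω : Om El k b U)
    (ξ : (El → Fin b) × ((Fin k → Fin b) → Fin U)) (e : El) :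
    g r (put r ω ξ) e = ξ.2 (Function.update (pre r.val (ω.1 e)) r (ξ.1 e)) := by
  sorry

omit [Fintype El] in
/-- SP-B4. -/
theorem g_put_gt {r i : Fin k} (hi : r.val < i.val) (ω : Om El k b U)
    {ξ ξ' : (El → Fin b) × ((Fin k → Fin b) → Fin U)} {e : El} (he : ξ.1 e = ξ'.1 e) :
    g i (put r ω ξ) e = g i (put r ω ξ') e := by
  sorry

/-- SP-B5. -/
theorem pass_put {r : Fin k} {r' : ℕ} (hr : r' ≤ r.val) (γ : El → ℤ) (ω : Om El k b U)
    (ξ : (El → Fin b) × ((Fin k → Fin b) → Fin U)) :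
    Pass γ (put r ω ξ) r' ↔ Pass γ ω r' := by
  sorry

end lens

/-! ## SP-C, SP-D, SP-E: windows -/

section windows

variable {El V : Type} [Fintype El] [DecidableEq El] {k b U : ℕ} [NeZero b]

open Classical in
/-- SP-C1 (from SP-A1 and SP-B). -/
theorem coll_bad [Fintype V] [DecidableEq V] (P : Proc El k b U V) {s : ℕ} (hP : P.OK s)
    (r : Fin k) (t0 : ℕ) (v : V) (τ A B x0 : ℕ) (h : 5 * A * (B * U + A * b) ≤ x0 * b * U) :
    (univ.filter (fun ω : Om El k b U =>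
      (P.rev ω t0 v τ r.val).card ≤ A ∧
      (∀ c, ((P.rev ω t0 v τ r.val).filter (fun e => pre r.val (ω.1 e) = c)).card ≤ B) ∧
      x0 + ((P.rev ω t0 v τ r.val).image (g r ω)).card ≤ (P.rev ω t0 v τ r.val).card)).card *
      2 ^ x0 ≤ Fintype.card (Om El k b U) := by
  sorry

open Classical in
/-- SP-C2 (from SP-A2 and SP-B). -/
theorem cell_bad [Fintype V] [DecidableEq V] (P : Proc El k b U V) {s : ℕ} (hP : P.OK s)
    (r : Fin k) (t0 : ℕ) (v : V) (τ B x0 : ℕ) (c : Fin k → Fin b) (h : 5 * B ≤ x0 * b) :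
    (univ.filter (fun ω : Om El k b U =>
      ((P.rev ω t0 v τ r.val).filter (fun e => pre r.val (ω.1 e) = pre r.val c)).card ≤ B ∧
      x0 ≤ ((P.rev ω t0 v τ r.val).filter
        (fun e => pre (r.val + 1) (ω.1 e) = pre (r.val + 1) c)).card)).card *
      2 ^ x0 ≤ Fintype.card (Om El k b U) := by
  sorry

/-- SP-D. -/
theorem rev_succ_card (P : Proc El k b U V) (ω : Om El k b U) (r : Fin k) (t0 : ℕ) (v : V)
    (τ x0 : ℕ) (h : (P.rev ω t0 v τ r.val).card <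
      x0 + ((P.rev ω t0 v τ r.val).image (g r ω)).card) :
    (P.rev ω t0 v τ (r.val + 1)).card ≤ 2 * x0 := by
  sorry

/-- SP-E (from SP-C, SP-D). -/
theorem window_main {W : ℕ} (P : Proc El k b U (Fin W)) {s : ℕ} (hP : P.OK s) {x β T : ℕ}
    (hs : s ≤ x) (hx : 1 ≤ x) (hβ : 1 ≤ β) (hb : b = 20 * x * β) (hU : U = b ^ 2) (hk : 1 ≤ k) :
    ∃ Bad : Finset (Om El k b U),
      Bad.card * 2 ^ x ≤ T * W * (k + k ^ 2 * b ^ k) * Fintype.card (Om El k b U) ∧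
      ∀ ω, ω ∉ Bad → ∀ t0 v, t0 + β ^ (k - 1) ≤ T →
        (P.rev ω t0 v (β ^ (k - 1)) k).card ≤ 2 * x := by
  sorry

end windows

/-! ## SP-F: the code -/

/-- SP-F. -/
theorem exists_mu (U s N : ℕ) : ∃ mu : Fin U → ℕ,
    (∀ u, mu u ≤ (U * (2 * N + 1)) ^ s) ∧ Free mu s N := by
  sorry

/-! ## SP-G: signs -/

/-- SP-G. -/
theorem sign_part {El : Type} [Fintype El] {k b U : ℕ} [NeZero b] {L Y M N s : ℕ}
    {mu : Fin U → ℕ} (hmu : Free mu s N) (hM : ∀ u, mu u ≤ M) (hY : N * M < Y) {κ : ℤ}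
    {γ : El → ℤ} (hs : (supp γ).card ≤ s) (hN : ∑ e, |γ e| ≤ N) (hL : |κ| + N < L)
    {ω ω' : Om El k b U} {r : ℕ} (hP : ¬ Pass γ ω r)
    (hg : ∀ i : Fin k, i.val < r → ∀ e ∈ supp γ, g i ω e = g i ω' e) {tiny tiny' : El → ℤ}
    (ht : ∀ e, |tiny e| ≤ 1) (ht' : ∀ e, |tiny' e| ≤ 1) :
    SignType.sign (κ + ∑ e, γ e * value L Y mu ω tiny e) =
      SignType.sign (κ + ∑ e, γ e * value L Y mu ω' tiny' e) := by
  sorry

/-! ## SP-H: instances -/

section instances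

variable {m n k b U L Y : ℕ} [NeZero b]

/-- SP-H1. -/
theorem inst_valid (h : 3 * m ≤ n) {mu : Fin U → ℕ} (hM : ∀ u, mu u < Y) (hL : 1 ≤ L)
    (hr : L * Y ^ k ≤ n ^ 300) (ω : Om (E m) k b U) {tiny : E m → ℤ}
    (ht : ∀ e, tiny e = 0 ∨ tiny e = 1) : (instOf h (wgt L Y mu ω tiny)).Valid := by
  sorry

/-- SP-H2. -/
theorem base_no (h : 3 * m ≤ n) (hL : 2 ≤ L) (mu : Fin U → ℕ) (ω : Om (E m) k b U) :
    ¬ (instOf h (wgt L Y mu ω tinyB)).Yes := by
  sorry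

/-- SP-H3. -/
theorem plant_yes (h : 3 * m ≤ n) (mu : Fin U → ℕ) (ω : Om (E m) k b U) (i j l : Fin m)
    (hd : ω.1 (1, j, l) = ω.1 (0, i, j)) :
    (instOf h (wgt L Y mu ω (tinyP (0, i, j)))).Yes := by
  sorry

variable {s K C : ℕ}

/-- SP-H4. -/
theorem val_inst (h : 3 * m ≤ n) (q : SparseQ n s K C) (v : E m → ℤ) :
    q.val (instOf h (fun e => sg e * v e)) = q.const + ∑ e, qcoef h q e * v e := by
  sorry

/-- SP-H5. -/
theorem card_supp_qcoef (h : 3 * m ≤ n) (q : SparseQ n s K C) :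
    (supp (qcoef h q)).card ≤ s := by
  sorry

/-- SP-H6. -/
theorem sum_qcoef (h : 3 * m ≤ n) (q : SparseQ n s K C) :
    ∑ e, |qcoef h q e| ≤ s * K := by
  sorry

open Classical in
/-- SP-I. -/
theorem mate_prob (hbk : b ^ k ≤ m) (i j : Fin m) :
    2 * (univ.filter (fun ω : Om (E m) k b U =>
      ¬ ∃ l : Fin m, ω.1 (1, j, l) = ω.1 (0, i, j))).card ≤ Fintype.card (Om (E m) k b U) := by
  sorry

end instances

/-! ## SP-K: averaging -/

open Classical in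
/-- SP-K. -/
theorem averaging {Ω R X : Type} [Fintype Ω] [Fintype R] [Fintype X]
    (ob : Ω → R → Bool) (op : X → Ω → R → Bool) (Mt : X → Ω → Prop) (Rv : Ω → R → Finset X)
    (h1 : ∀ ω, 2 * Fintype.card R ≤ 3 * (univ.filter (fun ρ => ob ω ρ = false)).card)
    (h2 : ∀ x ω, Mt x ω → 2 * Fintype.card R ≤ 3 * (univ.filter (fun ρ => op x ω ρ = true)).card)
    (h3 : ∀ x, 2 * (univ.filter (fun ω => ¬ Mt x ω)).card ≤ Fintype.card Ω)
    (h4 : ∀ x ω ρ, ob ω ρ ≠ op x ω ρ → x ∈ Rv ω ρ) :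
    Fintype.card X * Fintype.card R * Fintype.card Ω ≤ 6 * ∑ ω, ∑ ρ, (Rv ω ρ).card := by
  sorry

/-! ## SP-L: numbers -/

/-- SP-L. -/
theorem numeric {m s x k D : ℕ} (hm : 1 ≤ m) (hs : s ≤ x) (hx : 1 ≤ x) (hk : 1 ≤ k)
    (htriv : m ^ 2 ≤ 6 * s * D)
    (hmain : ∀ k' β N, 1 ≤ k' → k' ≤ k → 1 ≤ β → (20 * x * β) ^ k' ≤ m →
      D ≤ N * β ^ (k' - 1) → N * β ^ (k' - 1) ≤ D + m → m ^ 2 ≤ 24 * x * N) :
    (m : ℝ) ^ (3 - 1 / (k : ℝ)) ≤ (48 * (x : ℝ)) ^ k * D := by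
  sorry

end Pool.Agent.Helper23.SP.St
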