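import Pool.Agent.Helper23.SP.Defs2

set_option autoImplicit false

/-!
# Project SP, second version: statements of the pieces
-/

namespace Pool.Agent.Helper23.SP.St2

open Finset
open Pool.Agent.Helper23.SP

/-! ## SP2-A: reading lemmas -/

open Classical in
/-- SP2-A1. Collisions in light cells. -/
theorem read_light {El G V C : Type} [Fintype El] [DecidableEq El] [Fintype G] [DecidableEq G]
    [Fintype V] [DecidableEq V] [DecidableEq C] {b U : ℕ} (c0 : El → C) (key : El → Fin b → G)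
    (hkey : ∀ e y e' y', key e y = key e' y' → c0 e = c0 e' ∧ y = y')
    (S : ℕ → V → Finset El) (nx : ℕ → V → ((El → Fin b) × (G → Fin U)) → V)
    (hnx : ∀ t v (ω ω' : (El → Fin b) × (G → Fin U)), (∀ e ∈ S t v, ω.1 e = ω'.1 e ∧
      ω.2 (key e (ω.1 e)) = ω'.2 (key e (ω'.1 e))) → nx t v ω = nx t v ω')
    (v0 : V) (n A t x0 : ℕ) (h : 5 * A * (t * U + A * b) ≤ x0 * b * U) :
    (univ.filter (fun ω : (El → Fin b) × (G → Fin U) =>
      (rd S nx v0 ω n).card ≤ A ∧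
      x0 + ((lightSet c0 t (rd S nx v0 ω n)).image (fun e => ω.2 (key e (ω.1 e)))).card ≤
        (lightSet c0 t (rd S nx v0 ω n)).card)).card * 2 ^ x0 ≤
      Fintype.card ((El → Fin b) × (G → Fin U)) := by
  sorry

open Classical in
/-- SP2-A2. Heavy cells: all `B` cells `c` have the same number of labels. -/
theorem read_heavy {El Y V C : Type} [Fintype El] [DecidableEq El] [Fintype Y] [DecidableEq Y]
    [Fintype V] [DecidableEq V] [DecidableEq C] (c : Y → C) (B : ℕ)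
    (hB : ∀ y, B * (univ.filter (fun y' => c y' = c y)).card = Fintype.card Y)
    (S : ℕ → V → Finset El) (nx : ℕ → V → (El → Y) → V)
    (hnx : ∀ t v (ω ω' : El → Y), (∀ e ∈ S t v, ω e = ω' e) → nx t v ω = nx t v ω')
    (v0 : V) (n n' t y : ℕ) (hn' : ∀ ω, (rd S nx v0 ω n).card ≤ n') (h20 : 20 * n' ≤ B)
    (ht : 2 * B ≤ 2 ^ t) :
    (univ.filter (fun ω : El → Y =>
      y ≤ (heavySet (fun e => c (ω e)) t (rd S nx v0 ω n)).card)).card * 2 ^ y ≤
      3 * Fintype.card (El → Y) := by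
  sorry

/-! ## SP2-C: windows -/

section windows

variable {El V : Type} [Fintype El] [DecidableEq El] {k b U : ℕ} [NeZero b]

open Classical in
/-- SP2-C1 (from SP2-A1 and SP-B, as in SP-C). -/
theorem light_bad [Fintype V] [DecidableEq V] (P : Proc El k b U V) {s : ℕ} (hP : P.OK s)
    (r : Fin k) (t0 : ℕ) (v : V) (τ A t x0 : ℕ) (h : 5 * A * (t * U + A * b) ≤ x0 * b * U) :
    (univ.filter (fun ω : Om El k b U =>
      (P.rev ω t0 v τ r.val).card ≤ A ∧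
      x0 + ((lightSet (fun e => pre r.val (ω.1 e)) t (P.rev ω t0 v τ r.val)).image
        (g r ω)).card ≤
        (lightSet (fun e => pre r.val (ω.1 e)) t (P.rev ω t0 v τ r.val)).card)).card *
      2 ^ x0 ≤ Fintype.card (Om El k b U) := by
  sorry

open Classical in
/-- SP2-C2 (from SP2-A2): heavy cells of level `r` among all visited elements. -/
theorem heavy_bad [Fintype V] [DecidableEq V] (P : Proc El k b U V) {s : ℕ} (hP : P.OK s)
    {r : ℕ} (hr : r ≤ k) (t0 : ℕ) (v : V) (τ t y : ℕ) (h20 : 20 * (s * τ) ≤ b ^ r)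
    (ht : 2 * b ^ r ≤ 2 ^ t) :
    (univ.filter (fun ω : Om El k b U =>
      y ≤ (heavySet (fun e => pre r (ω.1 e)) t (P.rev ω t0 v τ 0)).card)).card * 2 ^ y ≤
      3 * Fintype.card (Om El k b U) := by
  sorry

/-- SP2-E (from SP2-C, SP-D). -/
theorem window_main2 {W : ℕ} (P : Proc El k b U (Fin W)) {s : ℕ} (hP : P.OK s)
    {x β t l T r0 : ℕ} (hx : 1 ≤ x) (hβ : 1 ≤ β) (ht : 1 ≤ t) (hl : s * l ≤ x)
    (hb : b = 60 * β * t) (hU : U = b ^ 2 * x) (ht2 : 2 * b ^ k ≤ 2 ^ t) (hr0 : r0 ≤ k)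
    (hr01 : 20 * x * β ≤ b ^ r0) :
    ∃ Bad : Finset (Om El k b U),
      Bad.card * 2 ^ x ≤ 2 * T * W * k * Fintype.card (Om El k b U) ∧
      ∀ ω, ω ∉ Bad → ∀ t0 v, t0 + l * β ^ (k - r0) ≤ T →
        (P.rev ω t0 v (l * β ^ (k - r0)) k).card ≤ 6 * x := by
  sorry

end windows

/-! ## SP2-L: numbers -/

/-- SP2-L. -/
theorem numeric2 {m s x k t D : ℕ} (hm : 1 ≤ m) (hs : 1 ≤ s) (hsx : s ≤ x) (hk : 1 ≤ k)
    (ht : 1 ≤ t) (htriv : m ^ 2 ≤ 6 * s * D)
    (hmain : ∀ β l r0 N, 1 ≤ β → 1 ≤ l → s * l ≤ x → (60 * β * t) ^ k ≤ m → r0 ≤ k →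
      20 * x * β ≤ (60 * β * t) ^ r0 → D ≤ N * (l * β ^ (k - r0)) →
      N * (l * β ^ (k - r0)) ≤ D + m → m ^ 2 ≤ 72 * x * N) :
    (m : ℝ) ^ (3 - 2 / (k : ℝ)) ≤ 6 * (120 * (t : ℝ)) ^ k * s * x * D := by
  sorry

end Pool.Agent.Helper23.SP.St2
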